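import Mathlib

-- part Pool.Agent.Lib.MP_09c31c_an.Basic
section

/-! Elementary lemmas: block sums, binomial sums, the spiral lemma. -/

set_option autoImplicit false

namespace Pool.Agent.Lib.MP_09c31c_an

open Finset

lemma sum_blocks {M : Type*} [AddCommMonoid M] (g : ℕ → M) (m k : ℕ) :
    ∑ n ∈ range (m * k), g n = ∑ j ∈ range k, ∑ i ∈ range m, g (m * j + i) := by
  induction k with
  | zero => simp
  | succ k ih => rw [Nat.mul_succ, Finset.sum_range_add, ih, Finset.sum_range_succ]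

lemma pow_mul_one_sub_le (x : ℝ) (h0 : 0 ≤ x) (h1 : x ≤ 1) (p : ℕ) :
    ((p : ℝ) + 1) * (x ^ p * (1 - x)) ≤ 1 - x ^ (p + 1) := by
  induction p with
  | zero => simp
  | succ p ih =>
    have hx : 0 ≤ x ^ p := pow_nonneg h0 p
    have h2 : x ^ (p + 1) ≤ x ^ p := by
      rw [pow_succ]; nlinarith
    have h3 : ((p : ℝ) + 1) * (x ^ (p + 1) * (1 - x)) ≤ ((p : ℝ) + 1) * (x ^ p * (1 - x)) := by
      apply mul_le_mul_of_nonneg_left _ (by positivity)
      apply mul_le_mul_of_nonneg_right h2 (by linarith)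
    push_cast
    have h4 : x ^ (p + 1 + 1) = x ^ (p + 1) * x := pow_succ _ _
    nlinarith

lemma pow_mul_one_sub_le' (x : ℝ) (h0 : 0 ≤ x) (h1 : x ≤ 1) (p : ℕ) :
    ((p : ℝ) + 1) * (x ^ p * (1 - x)) ≤ 1 := by
  have := pow_mul_one_sub_le x h0 h1 p
  have h2 : 0 ≤ x ^ (p + 1) := pow_nonneg h0 _
  linarith

lemma norm_pow_sub_pow (z w : ℂ) (hz : ‖z‖ ≤ 1) (hw : ‖w‖ ≤ 1) (n : ℕ) :
    ‖z ^ n - w ^ n‖ ≤ n * ‖z - w‖ := by
  induction n with
  | zero => simp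
  | succ n ih =>
    have e : z ^ (n + 1) - w ^ (n + 1) = z * (z ^ n - w ^ n) + (z - w) * w ^ n := by ring
    rw [e]
    have h1 : ‖z * (z ^ n - w ^ n)‖ ≤ n * ‖z - w‖ := by
      rw [norm_mul]
      calc ‖z‖ * ‖z ^ n - w ^ n‖ ≤ 1 * ‖z ^ n - w ^ n‖ :=
            mul_le_mul_of_nonneg_right hz (norm_nonneg _)
        _ ≤ n * ‖z - w‖ := by rw [one_mul]; exact ih
    have h2 : ‖(z - w) * w ^ n‖ ≤ ‖z - w‖ := by
      rw [norm_mul, norm_pow]
      have : ‖w‖ ^ n ≤ 1 := pow_le_one₀ (norm_nonneg _) hw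
      calc ‖z - w‖ * ‖w‖ ^ n ≤ ‖z - w‖ * 1 := mul_le_mul_of_nonneg_left this (norm_nonneg _)
        _ = ‖z - w‖ := mul_one _
    calc _ ≤ ‖z * (z ^ n - w ^ n)‖ + ‖(z - w) * w ^ n‖ := norm_add_le _ _
      _ ≤ n * ‖z - w‖ + ‖z - w‖ := add_le_add h1 h2
      _ = ((n + 1 : ℕ) : ℝ) * ‖z - w‖ := by push_cast; ring

lemma choose_div_succ (p j : ℕ) :
    (p.choose j : ℝ) / ((j : ℝ) + 1) = ((p + 1).choose (j + 1) : ℝ) / ((p : ℝ) + 1) := by
  have h := Nat.add_one_mul_choose_eq p j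
  have h' : ((p : ℝ) + 1) * (p.choose j : ℝ) = ((p + 1).choose (j + 1) : ℝ) * ((j : ℝ) + 1) := by
    exact_mod_cast h
  rw [div_eq_div_iff (by positivity) (by positivity)]
  linarith

lemma sum_choose_shift_le (p s k : ℕ) (hk : k + s ≤ p + 1) :
    ∑ j ∈ range k, (p.choose (j + s) : ℝ) ≤ 2 ^ p := by
  have h1 : ∑ j ∈ range (p + 1), (p.choose j : ℝ) = 2 ^ p := by
    exact_mod_cast Nat.sum_range_choose p
  rw [← h1]
  have h2 : ∑ j ∈ range k, (p.choose (j + s) : ℝ) ≤ ∑ j ∈ range (s + k), (p.choose j : ℝ) := by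
    rw [Finset.sum_range_add]
    have : 0 ≤ ∑ j ∈ range s, (p.choose j : ℝ) := by positivity
    have e : ∑ j ∈ range k, (p.choose (j + s) : ℝ) = ∑ j ∈ range k, (p.choose (s + j) : ℝ) := by
      apply Finset.sum_congr rfl; intro j _; rw [add_comm]
    linarith
  refine h2.trans ?_
  apply Finset.sum_le_sum_of_subset_of_nonneg
  · intro x hx; simp at hx ⊢; omega
  · intros; positivity

/-- `∑_{j=1}^{p} C(p,j)/(j+1) ≤ 2^(p+1)/(p+1)`. -/
lemma sum_choose_one (p : ℕ) :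
    ∑ j ∈ range p, (p.choose (j + 1) : ℝ) / ((j : ℝ) + 2) ≤ 2 ^ (p + 1) / ((p : ℝ) + 1) := by
  have e : ∀ j ∈ range p, (p.choose (j + 1) : ℝ) / ((j : ℝ) + 2)
      = ((p + 1).choose (j + 2) : ℝ) / ((p : ℝ) + 1) := by
    intro j _
    have := choose_div_succ p (j + 1)
    push_cast at this
    rw [← this]; ring_nf
  rw [Finset.sum_congr rfl e, ← Finset.sum_div]
  apply div_le_div_of_nonneg_right _ (by positivity)
  exact sum_choose_shift_le (p + 1) 2 p (by omega)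

/-- `∑_{j=1}^{p} C(p,j)/((j+1)(j+2)) ≤ 2^(p+2)/((p+1)(p+2))`. -/
lemma sum_choose_two (p : ℕ) :
    ∑ j ∈ range p, (p.choose (j + 1) : ℝ) / (((j : ℝ) + 2) * ((j : ℝ) + 3))
      ≤ 2 ^ (p + 2) / (((p : ℝ) + 1) * ((p : ℝ) + 2)) := by
  have e : ∀ j ∈ range p, (p.choose (j + 1) : ℝ) / (((j : ℝ) + 2) * ((j : ℝ) + 3))
      = ((p + 2).choose (j + 3) : ℝ) / (((p : ℝ) + 1) * ((p : ℝ) + 2)) := by
    intro j _
    have h1 := choose_div_succ p (j + 1)
    have h2 := choose_div_succ (p + 1) (j + 2)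
    push_cast at h1 h2
    have e1 : (p.choose (j + 1) : ℝ) / (((j : ℝ) + 2) * ((j : ℝ) + 3))
        = ((p.choose (j + 1) : ℝ) / ((j : ℝ) + 1 + 1)) / ((j : ℝ) + 3) := by
      rw [div_div]; ring_nf
    have e2 : ((p + 2).choose (j + 3) : ℝ) / (((p : ℝ) + 1) * ((p : ℝ) + 2))
        = (((p + 1 + 1).choose (j + 2 + 1) : ℝ) / ((p : ℝ) + 1 + 1)) / ((p : ℝ) + 1) := by
      rw [div_div]; ring_nf
    rw [e1, e2, h1, ← h2, div_div, div_div]; ring_nf
  rw [Finset.sum_congr rfl e, ← Finset.sum_div]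
  apply div_le_div_of_nonneg_right _ (by positivity)
  exact sum_choose_shift_le (p + 2) 3 p (by omega)

/-- the function `cos ^ (q+2)` is `sqrt (q+2)`-Lipschitz. -/
lemma cos_pow_lip (q : ℕ) (s t : ℝ) :
    |Real.cos s ^ (q + 2) - Real.cos t ^ (q + 2)| ≤ Real.sqrt ((q : ℝ) + 2) * |s - t| := by
  have hd : ∀ x : ℝ, HasDerivAt (fun y => Real.cos y ^ (q + 2))
      (((q + 2 : ℕ) : ℝ) * Real.cos x ^ (q + 1) * (-Real.sin x)) x := by
    intro x
    exact (Real.hasDerivAt_cos x).fun_pow (q + 2)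
  have hb : ∀ x ∈ (Set.univ : Set ℝ),
      ‖((q + 2 : ℕ) : ℝ) * Real.cos x ^ (q + 1) * (-Real.sin x)‖ ≤ Real.sqrt ((q : ℝ) + 2) := by
    intro x _
    apply Real.le_sqrt_of_sq_le
    rw [Real.norm_eq_abs, sq_abs]
    have h0 : 0 ≤ Real.cos x ^ 2 := sq_nonneg _
    have h1 : Real.cos x ^ 2 ≤ 1 := Real.cos_sq_le_one x
    have h := pow_mul_one_sub_le' (Real.cos x ^ 2) h0 h1 (q + 1)
    have hs : Real.sin x ^ 2 = 1 - Real.cos x ^ 2 := by
      have := Real.sin_sq_add_cos_sq x; linarith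
    have e : (((q + 2 : ℕ) : ℝ) * Real.cos x ^ (q + 1) * (-Real.sin x)) ^ 2
        = ((q : ℝ) + 2) * ((((q + 1 : ℕ) : ℝ) + 1) *
          ((Real.cos x ^ 2) ^ (q + 1) * (1 - Real.cos x ^ 2))) := by
      rw [← hs]; push_cast; ring
    rw [e]
    have : (0 : ℝ) ≤ (q : ℝ) + 2 := by positivity
    nlinarith
  have := Convex.norm_image_sub_le_of_norm_hasDerivWithin_le
    (f := fun y => Real.cos y ^ (q + 2)) (s := Set.univ)
    (fun x _ => (hd x).hasDerivWithinAt) hb convex_univ (Set.mem_univ t) (Set.mem_univ s)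
  simpa [Real.norm_eq_abs] using this

/-- rounding to a residue class mod `2π`. -/
lemma exists_round (x a : ℝ) : ∃ j : ℤ, |a + j * (2 * Real.pi) - x| ≤ 2 * Real.pi := by
  have hp : 0 < 2 * Real.pi := by positivity
  refine ⟨⌊(x - a) / (2 * Real.pi)⌋, ?_⟩
  have h1 := Int.floor_le ((x - a) / (2 * Real.pi))
  have h2 := Int.lt_floor_add_one ((x - a) / (2 * Real.pi))
  rw [le_div_iff₀ hp] at h1
  rw [div_lt_iff₀ hp] at h2
  rw [abs_le]; constructor <;> nlinarith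

/-- The spiral `t ↦ cos t ^ (q+2) * exp (i q t)` is dense in the unit disc up to `O(1/√q)`. -/
lemma spiral (q : ℕ) (hq : 1 ≤ q) (v : ℂ) (hv : ‖v‖ ≤ 1) :
    ∃ t : ℝ, ‖((Real.cos t : ℝ) : ℂ) ^ (q + 2) * Complex.exp (((q * t : ℝ) : ℂ) * Complex.I) - v‖
      ≤ Real.sqrt ((q : ℝ) + 2) * (2 * Real.pi / q) := by
  have hq' : (0 : ℝ) < q := by exact_mod_cast hq
  have hc : ContinuousOn (fun y => Real.cos y ^ (q + 2)) (Set.Icc 0 (Real.pi / 2)) := by
    fun_prop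
  have hmem : ‖v‖ ∈ Set.Icc ((fun y => Real.cos y ^ (q + 2)) (Real.pi / 2))
      ((fun y => Real.cos y ^ (q + 2)) 0) := by
    simp [hv]
  obtain ⟨t0, -, ht0⟩ := intermediate_value_Icc' (by positivity) hc hmem
  obtain ⟨j, hj⟩ := exists_round (q * t0) (Complex.arg v)
  refine ⟨(Complex.arg v + j * (2 * Real.pi)) / q, ?_⟩
  set t := (Complex.arg v + j * (2 * Real.pi)) / q with ht
  have hqt : (q : ℝ) * t = Complex.arg v + j * (2 * Real.pi) := by
    rw [ht]; field_simp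
  have hexp : Complex.exp (((q * t : ℝ) : ℂ) * Complex.I)
      = Complex.exp ((Complex.arg v : ℂ) * Complex.I) := by
    rw [hqt]
    push_cast
    rw [add_mul, Complex.exp_add]
    have : Complex.exp ((j : ℂ) * (2 * (Real.pi : ℂ)) * Complex.I) = 1 := by
      have := Complex.exp_int_mul_two_pi_mul_I j
      rw [← this]; congr 1; ring
    rw [this, mul_one]
  have hv2 : v = ((‖v‖ : ℝ) : ℂ) * Complex.exp ((Complex.arg v : ℂ) * Complex.I) :=
    (Complex.norm_mul_exp_arg_mul_I v).symm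
  rw [hexp]
  have e : ((Real.cos t : ℝ) : ℂ) ^ (q + 2) * Complex.exp ((Complex.arg v : ℂ) * Complex.I) - v
      = ((Real.cos t ^ (q + 2) - Real.cos t0 ^ (q + 2) : ℝ) : ℂ)
        * Complex.exp ((Complex.arg v : ℂ) * Complex.I) := by
    have h0 : Real.cos t0 ^ (q + 2) = ‖v‖ := ht0
    rw [h0, Complex.ofReal_sub, sub_mul, ← hv2, Complex.ofReal_pow]
  rw [e, norm_mul, Complex.norm_exp_ofReal_mul_I, mul_one, Complex.norm_real, Real.norm_eq_abs]
  refine (cos_pow_lip q t t0).trans ?_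
  apply mul_le_mul_of_nonneg_left _ (Real.sqrt_nonneg _)
  rw [le_div_iff₀ hq']
  have : |t - t0| * q = |q * t - q * t0| := by
    rw [← mul_sub, abs_mul, abs_of_pos hq', mul_comm]
  rw [this, hqt]
  exact hj

lemma one_sub_pow_ge (r : ℝ) (h0 : 0 ≤ r) (h1 : r < 1) (p m N : ℕ) (hm : p + N + 1 ≤ m) :
    Real.exp (-(r ^ N / (1 - r) ^ 2)) ≤ (1 - r ^ m) ^ p := by
  have hr : 0 < 1 - r := by linarith
  have hx0 : 0 ≤ r ^ m := pow_nonneg h0 m
  have hx1 : r ^ m ≤ r := by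
    calc r ^ m ≤ r ^ 1 := pow_le_pow_of_le_one h0 h1.le (by omega)
      _ = r := pow_one r
  have hx : 0 < 1 - r ^ m := by linarith
  have h2 : Real.exp (-(r ^ m / (1 - r))) ≤ 1 - r ^ m := by
    have h3 : r ^ m / (1 - r ^ m) ≤ r ^ m / (1 - r) :=
      div_le_div_of_nonneg_left hx0 hr (by linarith)
    have h4 := Real.add_one_le_exp (r ^ m / (1 - r ^ m))
    have h5 : r ^ m / (1 - r ^ m) + 1 = 1 / (1 - r ^ m) := by field_simp; ring
    rw [h5, div_le_iff₀ hx] at h4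
    have h6 : Real.exp (r ^ m / (1 - r ^ m)) ≤ Real.exp (r ^ m / (1 - r)) := Real.exp_le_exp.2 h3
    rw [Real.exp_neg, inv_le_iff_one_le_mul₀ (Real.exp_pos _)]
    nlinarith
  have h7 : Real.exp (-(r ^ m / (1 - r))) ^ p ≤ (1 - r ^ m) ^ p :=
    pow_le_pow_left₀ (Real.exp_pos _).le h2 p
  refine le_trans ?_ h7
  rw [← Real.exp_nat_mul]
  apply Real.exp_le_exp.2
  have h8 : r ^ m ≤ r ^ p * r ^ N := by
    rw [← pow_add]; exact pow_le_pow_of_le_one h0 h1.le (by omega)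
  have h9 := pow_mul_one_sub_le' r h0 h1.le p
  have hp : 0 ≤ r ^ p := pow_nonneg h0 p
  have hN : 0 ≤ r ^ N := pow_nonneg h0 N
  have h10 : (p : ℝ) * r ^ p * (1 - r) ≤ 1 := by nlinarith
  have h11 : (p : ℝ) * r ^ m * (1 - r) ≤ r ^ N := by
    calc (p : ℝ) * r ^ m * (1 - r) ≤ (p : ℝ) * (r ^ p * r ^ N) * (1 - r) := by gcongr
      _ = ((p : ℝ) * r ^ p * (1 - r)) * r ^ N := by ring
      _ ≤ 1 * r ^ N := by gcongr
      _ = r ^ N := one_mul _
  have : (p : ℝ) * (r ^ m / (1 - r)) ≤ r ^ N / (1 - r) ^ 2 := by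
    rw [le_div_iff₀ (by positivity)]
    have : (p : ℝ) * (r ^ m / (1 - r)) * (1 - r) ^ 2 = (p : ℝ) * r ^ m * (1 - r) := by
      field_simp
    linarith
  linarith

end Pool.Agent.Lib.MP_09c31c_an
end

-- part Pool.Agent.Lib.MP_09c31c_an.Blocks
section

/-! The polynomials `F = ∑ b n z^n`, `f = ∑ b n z^(n+1)/(n+1)` and the effect of
multiplying `F` by `(1 + z^m)^p`. -/

set_option autoImplicit false

namespace Pool.Agent.Lib.MP_09c31c_an

open Finset

noncomputable def FF (D : ℕ) (b : ℕ → ℕ) (z : ℂ) : ℂ := ∑ n ∈ range D, (b n : ℂ) * z ^ n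

noncomputable def ff (D : ℕ) (b : ℕ → ℕ) (z : ℂ) : ℂ :=
  ∑ n ∈ range D, (b n : ℂ) / ((n : ℂ) + 1) * z ^ (n + 1)

noncomputable def BB (D : ℕ) (b : ℕ → ℕ) : ℝ := ∑ n ∈ range D, (b n : ℝ)

noncomputable def TT (D : ℕ) (b : ℕ → ℕ) : ℝ := ∑ n ∈ range D, (b n : ℝ) / ((n : ℝ) + 1)

def nb (p m : ℕ) (b : ℕ → ℕ) (n : ℕ) : ℕ := p.choose (n / m) * b (n % m)

lemma nb_block (p m : ℕ) (b : ℕ → ℕ) (j i : ℕ) (hi : i < m) :
    nb p m b (m * j + i) = p.choose j * b i := by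
  have hm : 0 < m := by omega
  unfold nb
  rw [Nat.mul_add_div hm, Nat.div_eq_of_lt hi, Nat.mul_add_mod, Nat.mod_eq_of_lt hi, add_zero]

lemma nb_small (p m : ℕ) (b : ℕ → ℕ) (i : ℕ) (hi : i < m) : nb p m b i = b i := by
  have := nb_block p m b 0 i hi
  simpa using this

lemma nb_large (p m : ℕ) (hm : 0 < m) (b : ℕ → ℕ) (n : ℕ) (hn : m * (p + 1) ≤ n) :
    nb p m b n = 0 := by
  unfold nb
  have : p + 1 ≤ n / m := by
    rw [Nat.le_div_iff_mul_le hm, mul_comm]; exact hn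
  rw [Nat.choose_eq_zero_of_lt (by omega), zero_mul]

lemma sum_extend {M : Type*} [AddCommMonoid M] (g : ℕ → M) (D m : ℕ) (h : D ≤ m)
    (hg : ∀ n, D ≤ n → g n = 0) : ∑ n ∈ range m, g n = ∑ n ∈ range D, g n := by
  symm
  apply Finset.sum_subset
  · intro x hx; simp at hx ⊢; omega
  · intro x _ hx; simp at hx; exact hg x hx

lemma FF_extend (D m : ℕ) (b : ℕ → ℕ) (h : D ≤ m) (hb : ∀ n, D ≤ n → b n = 0) (z : ℂ) :
    FF m b z = FF D b z :=
  sum_extend _ D m h (fun n hn => by simp [hb n hn])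

lemma ff_extend (D m : ℕ) (b : ℕ → ℕ) (h : D ≤ m) (hb : ∀ n, D ≤ n → b n = 0) (z : ℂ) :
    ff m b z = ff D b z :=
  sum_extend _ D m h (fun n hn => by simp [hb n hn])

lemma BB_extend (D m : ℕ) (b : ℕ → ℕ) (h : D ≤ m) (hb : ∀ n, D ≤ n → b n = 0) :
    BB m b = BB D b :=
  sum_extend _ D m h (fun n hn => by simp [hb n hn])

lemma TT_extend (D m : ℕ) (b : ℕ → ℕ) (h : D ≤ m) (hb : ∀ n, D ≤ n → b n = 0) :
    TT m b = TT D b :=
  sum_extend _ D m h (fun n hn => by simp [hb n hn])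

lemma BB_nonneg (D : ℕ) (b : ℕ → ℕ) : 0 ≤ BB D b := by
  unfold BB; positivity

lemma FF_nb (p m : ℕ) (b : ℕ → ℕ) (z : ℂ) :
    FF (m * (p + 1)) (nb p m b) z = FF m b z * (1 + z ^ m) ^ p := by
  unfold FF
  rw [sum_blocks, add_comm (1 : ℂ), add_pow, Finset.mul_sum]
  apply Finset.sum_congr rfl
  intro j _
  rw [Finset.sum_mul]
  apply Finset.sum_congr rfl
  intro i hi
  rw [nb_block p m b j i (Finset.mem_range.1 hi)]
  push_cast
  rw [pow_add, pow_mul]; ring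

lemma BB_nb (p m : ℕ) (b : ℕ → ℕ) :
    BB (m * (p + 1)) (nb p m b) = 2 ^ p * BB m b := by
  unfold BB
  rw [sum_blocks]
  have h1 : ∑ j ∈ range (p + 1), (p.choose j : ℝ) = 2 ^ p := by
    exact_mod_cast Nat.sum_range_choose p
  rw [← h1, Finset.sum_mul]
  apply Finset.sum_congr rfl
  intro j _
  rw [Finset.mul_sum]
  apply Finset.sum_congr rfl
  intro i hi
  rw [nb_block p m b j i (Finset.mem_range.1 hi)]
  push_cast; ring

/-- the perturbation added at one step -/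
noncomputable def hh (p m : ℕ) (b : ℕ → ℕ) (z : ℂ) : ℂ :=
  ∑ j ∈ range p, ∑ i ∈ range m,
    (p.choose (j + 1) : ℂ) * (b i : ℂ) / ((m : ℂ) * ((j : ℂ) + 1) + (i : ℂ) + 1)
      * z ^ (m * (j + 1) + i + 1)

lemma ff_nb (p m : ℕ) (b : ℕ → ℕ) (z : ℂ) :
    ff (m * (p + 1)) (nb p m b) z = ff m b z + hh p m b z := by
  unfold ff hh
  rw [sum_blocks, Finset.sum_range_succ', add_comm]
  congr 1
  · apply Finset.sum_congr rfl
    intro i hi
    rw [nb_block p m b 0 i (Finset.mem_range.1 hi)]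
    simp
  · apply Finset.sum_congr rfl
    intro j _
    apply Finset.sum_congr rfl
    intro i hi
    rw [nb_block p m b (j + 1) i (Finset.mem_range.1 hi)]
    push_cast; ring

lemma TT_nb (p m : ℕ) (hm : 0 < m) (b : ℕ → ℕ) :
    TT (m * (p + 1)) (nb p m b) ≤ TT m b + 2 * (BB m b * (2 ^ (p + 1) / (((p : ℝ) + 1) * m))) := by
  have hm' : (0 : ℝ) < m := by exact_mod_cast hm
  unfold TT
  rw [sum_blocks, Finset.sum_range_succ', add_comm]
  apply add_le_add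
  · apply le_of_eq
    apply Finset.sum_congr rfl
    intro i hi
    rw [nb_block p m b 0 i (Finset.mem_range.1 hi)]
    simp
  · have h1 : ∀ j ∈ range p, ∑ i ∈ range m,
        ((nb p m b (m * (j + 1) + i) : ℕ) : ℝ) / (((m * (j + 1) + i : ℕ) : ℝ) + 1)
          ≤ (2 * BB m b / m) * ((p.choose (j + 1) : ℝ) / ((j : ℝ) + 2)) := by
      intro j _
      unfold BB
      rw [Finset.mul_sum, Finset.sum_div, Finset.sum_mul]
      apply Finset.sum_le_sum
      intro i hi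
      rw [nb_block p m b (j + 1) i (Finset.mem_range.1 hi)]
      push_cast
      rw [div_mul_div_comm, div_le_div_iff₀ (by positivity) (by positivity)]
      have hj : (0 : ℝ) ≤ j := by positivity
      have hi' : (0 : ℝ) ≤ i := by positivity
      have hc : (0 : ℝ) ≤ (p.choose (j + 1) : ℝ) * (b i : ℝ) := by positivity
      have : (m : ℝ) * ((j : ℝ) + 2) ≤ 2 * ((m : ℝ) * ((j : ℝ) + 1) + i + 1) := by nlinarith
      nlinarith
    refine (Finset.sum_le_sum h1).trans ?_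
    rw [← Finset.mul_sum]
    have h2 := sum_choose_one p
    have hB := BB_nonneg m b
    calc 2 * BB m b / m * ∑ j ∈ range p, (p.choose (j + 1) : ℝ) / ((j : ℝ) + 2)
        ≤ 2 * BB m b / m * (2 ^ (p + 1) / ((p : ℝ) + 1)) := by gcongr
      _ = _ := by field_simp

lemma norm_FF_le (D : ℕ) (b : ℕ → ℕ) (z : ℂ) (hz : ‖z‖ ≤ 1) : ‖FF D b z‖ ≤ BB D b := by
  unfold FF BB
  refine (norm_sum_le _ _).trans (Finset.sum_le_sum fun n _ => ?_)
  rw [norm_mul, norm_pow, Complex.norm_natCast]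
  have : ‖z‖ ^ n ≤ 1 := pow_le_one₀ (norm_nonneg _) hz
  have h0 : (0 : ℝ) ≤ b n := by positivity
  nlinarith

lemma ff_lip (D : ℕ) (b : ℕ → ℕ) (z w : ℂ) (hz : ‖z‖ ≤ 1) (hw : ‖w‖ ≤ 1) :
    ‖ff D b z - ff D b w‖ ≤ BB D b * ‖z - w‖ := by
  unfold ff BB
  rw [← Finset.sum_sub_distrib, Finset.sum_mul]
  refine (norm_sum_le _ _).trans (Finset.sum_le_sum fun n _ => ?_)
  rw [← mul_sub, norm_mul, norm_div, Complex.norm_natCast]
  have h := norm_pow_sub_pow z w hz hw (n + 1)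
  have e : ‖(n : ℂ) + 1‖ = (n : ℝ) + 1 := by
    have : (n : ℂ) + 1 = ((n + 1 : ℕ) : ℂ) := by push_cast; ring
    rw [this, Complex.norm_natCast]; push_cast; ring
  rw [e]
  push_cast at h
  calc (b n : ℝ) / ((n : ℝ) + 1) * ‖z ^ (n + 1) - w ^ (n + 1)‖
      ≤ (b n : ℝ) / ((n : ℝ) + 1) * (((n : ℝ) + 1) * ‖z - w‖) := by gcongr
    _ = (b n : ℝ) * ‖z - w‖ := by field_simp

lemma GG_lip (D : ℕ) (b : ℕ → ℕ) (z w : ℂ) (hz : ‖z‖ ≤ 1) (hw : ‖w‖ ≤ 1) :
    ‖z * FF D b z - w * FF D b w‖ ≤ D * BB D b * ‖z - w‖ := by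
  unfold FF BB
  rw [Finset.mul_sum, Finset.mul_sum, ← Finset.sum_sub_distrib, Finset.mul_sum, Finset.sum_mul]
  refine (norm_sum_le _ _).trans (Finset.sum_le_sum fun n hn => ?_)
  have e : z * ((b n : ℂ) * z ^ n) - w * ((b n : ℂ) * w ^ n)
      = (b n : ℂ) * (z ^ (n + 1) - w ^ (n + 1)) := by ring
  rw [e, norm_mul, Complex.norm_natCast]
  have h := norm_pow_sub_pow z w hz hw (n + 1)
  have hn' : ((n + 1 : ℕ) : ℝ) ≤ D := by
    have := Finset.mem_range.1 hn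
    exact_mod_cast this
  calc (b n : ℝ) * ‖z ^ (n + 1) - w ^ (n + 1)‖ ≤ (b n : ℝ) * (((n + 1 : ℕ) : ℝ) * ‖z - w‖) := by
        gcongr
    _ ≤ (b n : ℝ) * ((D : ℝ) * ‖z - w‖) := by gcongr
    _ = _ := by ring

/-- binomial identity for the approximant -/
lemma approx_identity (p : ℕ) (ω : ℂ) :
    (1 + ω) ^ (p + 1) / ((p : ℂ) + 1)
      = 1 / ((p : ℂ) + 1) + ω + ω * ∑ j ∈ range p,
        (p.choose (j + 1) : ℂ) / ((j : ℂ) + 2) * ω ^ (j + 1) := by
  have hp : ((p : ℂ) + 1) ≠ 0 := by exact_mod_cast Nat.succ_ne_zero p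
  rw [add_comm (1 : ℂ) ω, add_pow, Finset.sum_range_succ', Finset.sum_range_succ', add_div,
    add_div, Finset.sum_div, Finset.mul_sum]
  have e : ∀ j ∈ range p, ω ^ (j + 1 + 1) * 1 ^ (p + 1 - (j + 1 + 1))
      * ((p + 1).choose (j + 1 + 1) : ℂ) / ((p : ℂ) + 1)
      = ω * ((p.choose (j + 1) : ℂ) / ((j : ℂ) + 2) * ω ^ (j + 1)) := by
    intro j _
    have h := choose_div_succ p (j + 1)
    have h' : ((p.choose (j + 1) : ℂ)) / ((j : ℂ) + 2)
        = ((p + 1).choose (j + 1 + 1) : ℂ) / ((p : ℂ) + 1) := by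
      have := congrArg (fun x : ℝ => (x : ℂ)) h
      simp only [Complex.ofReal_div, Complex.ofReal_natCast, Complex.ofReal_add,
        Complex.ofReal_one] at this
      rw [← this]; push_cast; ring_nf
    rw [h']; ring
  rw [Finset.sum_congr rfl e]
  simp
  field_simp
  ring

/-- the perturbation is close to `z F(z) (1+ω)^(p+1) / (ω (p+1) m)` with `ω = z^m`. -/
lemma hh_approx (p m : ℕ) (hm : 0 < m) (b : ℕ → ℕ) (z : ℂ) (hz : ‖z‖ = 1) :
    ‖hh p m b z - z * FF m b z * ((1 + z ^ m) ^ (p + 1) / (z ^ m * (((p : ℂ) + 1) * m)))‖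
      ≤ BB m b * (6 * (2 ^ (p + 1) / (((p : ℝ) + 1) * m)) / ((p : ℝ) + 2) + 2 / m) := by
  have hm' : (0 : ℝ) < m := by exact_mod_cast hm
  have hmc : (m : ℂ) ≠ 0 := by exact_mod_cast hm.ne'
  have hp : ((p : ℂ) + 1) ≠ 0 := by exact_mod_cast Nat.succ_ne_zero p
  have hz0 : z ≠ 0 := by
    intro h; rw [h] at hz; simp at hz
  have hω : z ^ m ≠ 0 := pow_ne_zero _ hz0
  have hB := BB_nonneg m b
  have e1 : (1 + z ^ m) ^ (p + 1) / (z ^ m * (((p : ℂ) + 1) * m))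
      = (1 / (((p : ℂ) + 1) * z ^ m) + 1) / m + (∑ j ∈ range p,
        (p.choose (j + 1) : ℂ) / ((j : ℂ) + 2) * (z ^ m) ^ (j + 1)) / m := by
    have h := approx_identity p (z ^ m)
    have : (1 + z ^ m) ^ (p + 1) / (z ^ m * (((p : ℂ) + 1) * m))
        = ((1 + z ^ m) ^ (p + 1) / ((p : ℂ) + 1)) / (z ^ m * m) := by
      field_simp
    rw [this, h]
    field_simp
  have e2 : hh p m b z - z * FF m b z * ((∑ j ∈ range p,
        (p.choose (j + 1) : ℂ) / ((j : ℂ) + 2) * (z ^ m) ^ (j + 1)) / m)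
      = ∑ j ∈ range p, ∑ i ∈ range m, (p.choose (j + 1) : ℂ) * (b i : ℂ) *
          (((1 / ((m : ℝ) * ((j : ℝ) + 1) + (i : ℝ) + 1) - 1 / ((m : ℝ) * ((j : ℝ) + 2)) : ℝ)) : ℂ)
          * z ^ (m * (j + 1) + i + 1) := by
    unfold hh FF
    rw [Finset.sum_div, Finset.mul_sum, ← Finset.sum_sub_distrib]
    apply Finset.sum_congr rfl
    intro j _
    rw [Finset.mul_sum, Finset.sum_mul, ← Finset.sum_sub_distrib]
    apply Finset.sum_congr rfl
    intro i _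
    have hj : ((j : ℂ) + 2) ≠ 0 := by exact_mod_cast (show (j + 2 : ℕ) ≠ 0 by omega)
    push_cast
    rw [← pow_mul]
    field_simp
    ring
  have b2 : ‖∑ j ∈ range p, ∑ i ∈ range m, (p.choose (j + 1) : ℂ) * (b i : ℂ) *
          (((1 / ((m : ℝ) * ((j : ℝ) + 1) + (i : ℝ) + 1) - 1 / ((m : ℝ) * ((j : ℝ) + 2)) : ℝ)) : ℂ)
          * z ^ (m * (j + 1) + i + 1)‖
      ≤ BB m b * (6 * (2 ^ (p + 1) / (((p : ℝ) + 1) * m)) / ((p : ℝ) + 2)) := by
    have h1 : ∀ j ∈ range p, ‖∑ i ∈ range m, (p.choose (j + 1) : ℂ) * (b i : ℂ) *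
          (((1 / ((m : ℝ) * ((j : ℝ) + 1) + (i : ℝ) + 1) - 1 / ((m : ℝ) * ((j : ℝ) + 2)) : ℝ)) : ℂ)
          * z ^ (m * (j + 1) + i + 1)‖
        ≤ (3 * BB m b / m) * ((p.choose (j + 1) : ℝ) / (((j : ℝ) + 2) * ((j : ℝ) + 3))) := by
      intro j _
      unfold BB
      rw [Finset.mul_sum, Finset.sum_div, Finset.sum_mul]
      refine (norm_sum_le _ _).trans (Finset.sum_le_sum fun i hi => ?_)
      have hi1 : (i : ℝ) + 1 ≤ m := by exact_mod_cast Finset.mem_range.1 hi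
      rw [norm_mul, norm_mul, norm_mul, norm_pow, hz, one_pow, mul_one, Complex.norm_natCast,
        Complex.norm_natCast, Complex.norm_real, Real.norm_eq_abs]
      have hj : (0 : ℝ) ≤ j := by positivity
      have hi' : (0 : ℝ) ≤ i := by positivity
      have hd1 : (0 : ℝ) < (m : ℝ) * ((j : ℝ) + 1) := by positivity
      have a1 : 1 / ((m : ℝ) * ((j : ℝ) + 2)) ≤ 1 / ((m : ℝ) * ((j : ℝ) + 1) + (i : ℝ) + 1) := by
        apply one_div_le_one_div_of_le (by positivity); nlinarith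
      have a2 : 1 / ((m : ℝ) * ((j : ℝ) + 1) + (i : ℝ) + 1) ≤ 1 / ((m : ℝ) * ((j : ℝ) + 1)) := by
        apply one_div_le_one_div_of_le hd1; linarith
      have a3 : 1 / ((m : ℝ) * ((j : ℝ) + 1)) - 1 / ((m : ℝ) * ((j : ℝ) + 2))
          ≤ 3 / ((m : ℝ) * (((j : ℝ) + 2) * ((j : ℝ) + 3))) := by
        rw [div_sub_div _ _ (by positivity) (by positivity),
          div_le_div_iff₀ (by positivity) (by positivity)]
        have : (0 : ℝ) ≤ (m : ℝ) ^ 2 * ((j : ℝ) + 2) * j := by positivity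
        nlinarith
      rw [abs_of_nonneg (by linarith)]
      have hc : (0 : ℝ) ≤ (p.choose (j + 1) : ℝ) * (b i : ℝ) := by positivity
      calc (p.choose (j + 1) : ℝ) * (b i : ℝ) *
            (1 / ((m : ℝ) * ((j : ℝ) + 1) + (i : ℝ) + 1) - 1 / ((m : ℝ) * ((j : ℝ) + 2)))
          ≤ (p.choose (j + 1) : ℝ) * (b i : ℝ) *
            (3 / ((m : ℝ) * (((j : ℝ) + 2) * ((j : ℝ) + 3)))) := by
            apply mul_le_mul_of_nonneg_left _ hc; linarith
        _ = _ := by field_simp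
    refine (norm_sum_le _ _).trans ((Finset.sum_le_sum h1).trans ?_)
    rw [← Finset.mul_sum]
    have h2 := sum_choose_two p
    calc 3 * BB m b / m * ∑ j ∈ range p,
          (p.choose (j + 1) : ℝ) / (((j : ℝ) + 2) * ((j : ℝ) + 3))
        ≤ 3 * BB m b / m * (2 ^ (p + 2) / (((p : ℝ) + 1) * ((p : ℝ) + 2))) := by gcongr
      _ = _ := by field_simp; ring
  have b1 : ‖z * FF m b z * ((1 / (((p : ℂ) + 1) * z ^ m) + 1) / m)‖ ≤ BB m b * (2 / m) := by
    rw [norm_mul, norm_mul, hz, one_mul, norm_div, Complex.norm_natCast]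
    have h1 := norm_FF_le m b z hz.le
    have h2 : ‖1 / (((p : ℂ) + 1) * z ^ m) + 1‖ ≤ 2 := by
      refine (norm_add_le _ _).trans ?_
      rw [norm_div, norm_mul, norm_pow, hz, one_pow, mul_one, norm_one]
      have e : ‖(p : ℂ) + 1‖ = (p : ℝ) + 1 := by
        have : (p : ℂ) + 1 = ((p + 1 : ℕ) : ℂ) := by push_cast; ring
        rw [this, Complex.norm_natCast]; push_cast; ring
      rw [e]
      have : 1 / ((p : ℝ) + 1) ≤ 1 := by
        rw [div_le_one (by positivity)]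
        have : (0 : ℝ) ≤ p := by positivity
        linarith
      linarith
    gcongr
  rw [e1, mul_add, ← sub_sub, sub_right_comm, e2, mul_add]
  exact (norm_sub_le _ _).trans (add_le_add b2 b1)

end Pool.Agent.Lib.MP_09c31c_an
end

-- part Pool.Agent.Lib.MP_09c31c_an.Step
section

/-! The inductive step of the construction. -/

set_option autoImplicit false

namespace Pool.Agent.Lib.MP_09c31c_an

open Finset Filter Topology

structure Inv (N : ℕ) (ε c : ℝ) (D : ℕ) (b : ℕ → ℕ) : Prop where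
  zero : ∀ n, D ≤ n → b n = 0
  pos : 1 ≤ BB D b
  inner : ∀ z : ℂ, ‖z‖ < 1 → Real.exp (-((1 - ‖z‖ ^ N) / (1 - ‖z‖) ^ 3)) ≤ ‖FF D b z‖
  dense : ∀ w : ℂ, ‖w‖ ≤ 1 / 2 → ∃ z : ℂ, ‖z‖ = 1 ∧ ε ≤ ‖ff D b z - w‖ ∧
    ‖ff D b z - w‖ ≤ 3 * ε ∧ BB D b ≤ c * ‖FF D b z‖

lemma params (B ε c : ℝ) (D N : ℕ) (hB : 1 ≤ B) (hε : 0 < ε) (hc : 0 < c) :
    ∃ q m : ℕ, 1 ≤ q ∧ D ≤ m ∧ q + 1 + N + 1 ≤ m ∧
      4 * ε * c ≤ B * (2 ^ (q + 2) / (((q : ℝ) + 2) * m)) ∧
      B * (2 ^ (q + 2) / (((q : ℝ) + 2) * m)) ≤ 5 * ε * c ∧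
      B * (2 * Real.pi / m) + B * (6 * (2 ^ (q + 2) / (((q : ℝ) + 2) * m)) / ((q : ℝ) + 3) + 2 / m)
        + D * B * (2 * Real.pi / m) * (2 ^ (q + 2) / (((q : ℝ) + 2) * m))
        + B * (2 ^ (q + 2) / (((q : ℝ) + 2) * m)) * (Real.sqrt ((q : ℝ) + 2) * (2 * Real.pi / q))
        ≤ ε / 20 := by
  have hεc : 0 < ε * c := mul_pos hε hc
  have t1 : Tendsto (fun n : ℕ => (n : ℝ) ^ 2 / (2 : ℝ) ^ n) atTop (𝓝 0) :=
    tendsto_pow_const_div_const_pow_of_one_lt 2 one_lt_two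
  have e1 : ∀ᶠ n : ℕ in atTop, (n : ℝ) ^ 2 / (2 : ℝ) ^ n ≤ 1 / (8 * (ε * c)) :=
    t1.eventually (ge_mem_nhds (by positivity))
  have e2 : ∀ᶠ n : ℕ in atTop, (9 * B + 30 * (ε * c) + 40 * D * (ε * c)) * 40 / ε ≤ (n : ℝ) :=
    tendsto_natCast_atTop_atTop.eventually_ge_atTop _
  have e3 : ∀ᶠ n : ℕ in atTop, 3 * (1600 * c) ^ 2 + 2 ≤ (n : ℝ) :=
    tendsto_natCast_atTop_atTop.eventually_ge_atTop _
  obtain ⟨n, h1, h2, h3, h4⟩ := (e1.and (e2.and (e3.and (eventually_ge_atTop (N + D + 3))))).exists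
  obtain ⟨q, rfl⟩ : ∃ q, n = q + 2 := ⟨n - 2, by omega⟩
  have hq1 : 1 ≤ q := by omega
  have hq : (1 : ℝ) ≤ q := by exact_mod_cast hq1
  push_cast at h1 h2 h3
  set P : ℝ := 2 ^ (q + 2) with hP
  have hP0 : 0 < P := by positivity
  set X : ℝ := B * P / (((q : ℝ) + 2) * (4 * (ε * c))) with hX
  have hX2 : 2 * ((q : ℝ) + 2) ≤ X := by
    rw [hX, le_div_iff₀ (by positivity)]
    rw [div_le_div_iff₀ hP0 (by positivity)] at h1
    nlinarith
  have hm1 : ((⌊X⌋₊ : ℕ) : ℝ) ≤ X := Nat.floor_le (by linarith)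
  have hm2 : X < ((⌊X⌋₊ : ℕ) : ℝ) + 1 := Nat.lt_floor_add_one X
  have hm3 : 2 * (q + 2) ≤ ⌊X⌋₊ := by
    apply Nat.le_floor; push_cast; exact hX2
  set m := ⌊X⌋₊ with hm
  have hm4 : (q : ℝ) + 2 ≤ m := by
    have : q + 2 ≤ m := by omega
    exact_mod_cast this
  have hm5 : (6 : ℝ) ≤ m := by
    have : 6 ≤ m := by omega
    exact_mod_cast this
  have hm0 : (0 : ℝ) < m := by linarith
  have hBR : B * (P / (((q : ℝ) + 2) * m)) = X * (4 * (ε * c)) / m := by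
    rw [hX]; field_simp
  have hlo : 4 * ε * c ≤ B * (P / (((q : ℝ) + 2) * m)) := by
    rw [hBR, le_div_iff₀ hm0]; nlinarith
  have hhi : B * (P / (((q : ℝ) + 2) * m)) ≤ 5 * ε * c := by
    rw [hBR, div_le_iff₀ hm0]; nlinarith
  refine ⟨q, m, hq1, by omega, by omega, hlo, hhi, ?_⟩
  set R : ℝ := P / (((q : ℝ) + 2) * m) with hR
  have hR0 : 0 < R := by positivity
  have hpi : Real.pi ≤ 4 := Real.pi_le_four
  have hpi0 : 0 < Real.pi := Real.pi_pos
  have hn0 : (0 : ℝ) < (q : ℝ) + 2 := by linarith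
  have hinv : 1 / (m : ℝ) ≤ 1 / ((q : ℝ) + 2) := one_div_le_one_div_of_le hn0 hm4
  have hinv3 : 1 / ((q : ℝ) + 3) ≤ 1 / ((q : ℝ) + 2) := one_div_le_one_div_of_le hn0 (by linarith)
  set y : ℝ := 1 / ((q : ℝ) + 2) with hy
  have hy0 : 0 < y := by positivity
  have hpi7 : 2 * Real.pi ≤ 7 := by have := Real.pi_lt_d2; linarith
  have a0 : 2 * Real.pi / m ≤ 7 * y := by
    rw [div_eq_mul_one_div]
    exact mul_le_mul hpi7 hinv (by positivity) (by norm_num)
  have a1 : B * (2 * Real.pi / m) ≤ B * (7 * y) := by gcongr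
  have a2 : B * (6 * R / ((q : ℝ) + 3) + 2 / m) ≤ 30 * (ε * c) * y + B * (2 * y) := by
    have : B * (6 * R / ((q : ℝ) + 3) + 2 / m)
        = 6 * (B * R) * (1 / ((q : ℝ) + 3)) + B * (2 * (1 / m)) := by ring
    rw [this]
    apply add_le_add
    · have : 6 * (B * R) ≤ 30 * (ε * c) := by linarith
      exact mul_le_mul this hinv3 (by positivity) (by positivity)
    · gcongr
  have a3 : D * B * (2 * Real.pi / m) * R ≤ 40 * D * (ε * c) * y := by
    have e : D * B * (2 * Real.pi / m) * R = D * ((B * R) * (2 * Real.pi / m)) := by ring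
    rw [e]
    have : (B * R) * (2 * Real.pi / m) ≤ (5 * ε * c) * (7 * y) :=
      mul_le_mul hhi a0 (by positivity) (by positivity)
    have hD : (0 : ℝ) ≤ D := by positivity
    have h5 : 0 ≤ ε * c * y := by positivity
    nlinarith
  have a4 : (9 * B + 30 * (ε * c) + 40 * D * (ε * c)) * y ≤ ε / 40 := by
    rw [div_le_iff₀ hε] at h2
    rw [hy, mul_one_div, div_le_div_iff₀ hn0 (by norm_num)]
    linarith
  have a5 : Real.sqrt ((q : ℝ) + 2) ≤ q / (1600 * c) := by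
    apply Real.sqrt_le_iff.2
    refine ⟨by positivity, ?_⟩
    rw [div_pow, le_div_iff₀ (by positivity)]
    have h6 : 0 ≤ (1600 * c) ^ 2 := by positivity
    nlinarith
  have a6 : Real.sqrt ((q : ℝ) + 2) * (2 * Real.pi / q) ≤ 1 / (200 * c) := by
    calc Real.sqrt ((q : ℝ) + 2) * (2 * Real.pi / q) ≤ q / (1600 * c) * (8 / q) := by
          gcongr; linarith
      _ = 1 / (200 * c) := by field_simp; norm_num
  have a7 : B * R * (Real.sqrt ((q : ℝ) + 2) * (2 * Real.pi / q)) ≤ ε / 40 := by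
    calc B * R * (Real.sqrt ((q : ℝ) + 2) * (2 * Real.pi / q))
        ≤ (5 * ε * c) * (1 / (200 * c)) := mul_le_mul hhi a6 (by positivity) (by positivity)
      _ = ε / 40 := by field_simp; norm_num
  have a8 : (9 * B + 30 * (ε * c) + 40 * D * (ε * c)) * y
      = B * (7 * y) + (30 * (ε * c) * y + B * (2 * y)) + 40 * D * (ε * c) * y := by ring
  linarith

lemma exp_close (a b : ℝ) :
    ‖Complex.exp ((a : ℂ) * Complex.I) - Complex.exp ((b : ℂ) * Complex.I)‖ ≤ |a - b| := by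
  have e : Complex.exp ((a : ℂ) * Complex.I) - Complex.exp ((b : ℂ) * Complex.I)
      = Complex.exp ((b : ℂ) * Complex.I) * (Complex.exp (Complex.I * ((a - b : ℝ) : ℂ)) - 1) := by
    rw [mul_sub, ← Complex.exp_add, mul_one]
    congr 2; push_cast; ring
  rw [e, norm_mul, Complex.norm_exp_ofReal_mul_I, one_mul]
  have := Real.norm_exp_I_mul_ofReal_sub_one_le (x := a - b)
  simpa [Real.norm_eq_abs] using this

lemma one_add_exp (t : ℝ) :
    1 + Complex.exp (((2 * t : ℝ) : ℂ) * Complex.I)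
      = 2 * ((Real.cos t : ℝ) : ℂ) * Complex.exp ((t : ℂ) * Complex.I) := by
  rw [Complex.ofReal_cos, Complex.two_cos, add_mul, ← Complex.exp_add, ← Complex.exp_add]
  push_cast
  rw [add_comm]
  congr 1
  · congr 1; ring
  · rw [← Complex.exp_zero]; congr 1; ring

lemma dense_step (ε c : ℝ) (D : ℕ) (b : ℕ → ℕ) (hε : 0 < ε) (hc : 0 < c)
    (hzero : ∀ n, D ≤ n → b n = 0) (hB : 1 ≤ BB D b) (q m : ℕ) (hq : 1 ≤ q) (hDm : D ≤ m)
    (hm : 0 < m)
    (hlo : 4 * ε * c ≤ BB D b * (2 ^ (q + 2) / (((q : ℝ) + 2) * m)))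
    (hhi : BB D b * (2 ^ (q + 2) / (((q : ℝ) + 2) * m)) ≤ 5 * ε * c)
    (herr : BB D b * (2 * Real.pi / m)
        + BB D b * (6 * (2 ^ (q + 2) / (((q : ℝ) + 2) * m)) / ((q : ℝ) + 3) + 2 / m)
        + D * BB D b * (2 * Real.pi / m) * (2 ^ (q + 2) / (((q : ℝ) + 2) * m))
        + BB D b * (2 ^ (q + 2) / (((q : ℝ) + 2) * m))
          * (Real.sqrt ((q : ℝ) + 2) * (2 * Real.pi / q))
        ≤ ε / 20)
    (w z0 : ℂ) (hz0 : ‖z0‖ = 1) (h1 : ε ≤ ‖ff D b z0 - w‖) (h2 : ‖ff D b z0 - w‖ ≤ 3 * ε)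
    (h3 : BB D b ≤ c * ‖FF D b z0‖) :
    ∃ z : ℂ, ‖z‖ = 1 ∧ ε / 20 ≤ ‖ff (m * (q + 1 + 1)) (nb (q + 1) m b) z - w‖ ∧
      ‖ff (m * (q + 1 + 1)) (nb (q + 1) m b) z - w‖ ≤ 3 * (ε / 20) ∧
      BB (m * (q + 1 + 1)) (nb (q + 1) m b)
        ≤ (10 * c) * ‖FF (m * (q + 1 + 1)) (nb (q + 1) m b) z‖ := by
  have hm' : (0 : ℝ) < m := by exact_mod_cast hm
  set B := BB D b with hBdef
  set R : ℝ := 2 ^ (q + 2) / (((q : ℝ) + 2) * m) with hR
  have hR0 : 0 < R := by positivity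
  set η : ℝ := Real.sqrt ((q : ℝ) + 2) * (2 * Real.pi / q) with hη
  have hη0 : 0 ≤ η := by positivity
  set u : ℂ := w + ((ε / 10 : ℝ) : ℂ) - ff D b z0 with hu
  have hne : ‖((ε / 10 : ℝ) : ℂ)‖ = ε / 10 := by
    rw [Complex.norm_real, Real.norm_eq_abs, abs_of_pos (by positivity)]
  have hu1 : ‖u‖ ≤ 4 * ε := by
    have e : u = ((ε / 10 : ℝ) : ℂ) - (ff D b z0 - w) := by rw [hu]; ring
    have := norm_sub_le ((ε / 10 : ℝ) : ℂ) (ff D b z0 - w)
    rw [e]; linarith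
  have hu2 : ε - ε / 10 ≤ ‖u‖ := by
    have e : ff D b z0 - w = ((ε / 10 : ℝ) : ℂ) - u := by rw [hu]; ring
    have := norm_sub_le ((ε / 10 : ℝ) : ℂ) u
    rw [e] at h1; linarith
  set G0 : ℂ := z0 * FF D b z0 with hG0
  have hG0n : ‖G0‖ = ‖FF D b z0‖ := by rw [hG0, norm_mul, hz0, one_mul]
  have hG0le : ‖G0‖ ≤ B := by rw [hG0n]; exact norm_FF_le D b z0 hz0.le
  have hG0R : 4 * ε ≤ ‖G0‖ * R := by
    rw [hG0n]
    have : 4 * ε * c ≤ c * ‖FF D b z0‖ * R := hlo.trans (by gcongr)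
    have h' : c * (4 * ε) ≤ c * (‖FF D b z0‖ * R) := by linarith
    exact le_of_mul_le_mul_left h' hc
  have hG0pos : 0 < ‖G0‖ := by
    by_contra h
    have : ‖G0‖ = 0 := le_antisymm (not_lt.1 h) (norm_nonneg _)
    rw [this] at hG0R; linarith
  have hG0ne : G0 ≠ 0 := norm_pos_iff.1 hG0pos
  have hRne : (R : ℂ) ≠ 0 := by exact_mod_cast hR0.ne'
  set v : ℂ := u / (G0 * (R : ℂ)) with hv
  have hv1 : ‖v‖ ≤ 1 := by
    rw [hv, norm_div, norm_mul, Complex.norm_real, Real.norm_eq_abs, abs_of_pos hR0,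
      div_le_one (by positivity)]
    linarith
  have huv : u = G0 * (R : ℂ) * v := by rw [hv]; field_simp
  obtain ⟨t, ht⟩ := spiral q hq v hv1
  set σ : ℂ := ((Real.cos t : ℝ) : ℂ) ^ (q + 2) * Complex.exp (((q * t : ℝ) : ℂ) * Complex.I)
    with hσ
  have hcos : |Real.cos t| ≤ 1 := Real.abs_cos_le_one t
  have hσn : ‖σ‖ = |Real.cos t| ^ (q + 2) := by
    rw [hσ, norm_mul, Complex.norm_exp_ofReal_mul_I, mul_one, norm_pow, Complex.norm_real,
      Real.norm_eq_abs]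
  have hσ1 : ‖σ‖ ≤ 1 := by rw [hσn]; exact pow_le_one₀ (abs_nonneg _) hcos
  obtain ⟨j, hj⟩ := exists_round (m * Complex.arg z0) (2 * t)
  set θ : ℝ := (2 * t + j * (2 * Real.pi)) / m with hθ
  have hmθ : (m : ℝ) * θ = 2 * t + j * (2 * Real.pi) := by rw [hθ]; field_simp
  set z : ℂ := Complex.exp ((θ : ℂ) * Complex.I) with hz
  have hzn : ‖z‖ = 1 := Complex.norm_exp_ofReal_mul_I θ
  have hz0e : z0 = Complex.exp ((Complex.arg z0 : ℂ) * Complex.I) := by
    have := Complex.norm_mul_exp_arg_mul_I z0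
    rw [hz0] at this; simpa using this.symm
  have hzz : ‖z - z0‖ ≤ 2 * Real.pi / m := by
    have := exp_close θ (Complex.arg z0)
    rw [← hz0e] at this
    refine this.trans ?_
    rw [le_div_iff₀ hm']
    have e : |θ - Complex.arg z0| * m = |m * θ - m * Complex.arg z0| := by
      rw [← mul_sub, abs_mul, abs_of_pos hm', mul_comm]
    rw [e, hmθ]; exact hj
  have hzm : z ^ m = Complex.exp (((2 * t : ℝ) : ℂ) * Complex.I) := by
    rw [hz, ← Complex.exp_nat_mul]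
    have e : (m : ℂ) * ((θ : ℂ) * Complex.I)
        = ((2 * t : ℝ) : ℂ) * Complex.I + (j : ℂ) * (2 * (Real.pi : ℂ) * Complex.I) := by
      have := congrArg (fun x : ℝ => (x : ℂ)) hmθ
      simp only [Complex.ofReal_mul, Complex.ofReal_add, Complex.ofReal_natCast,
        Complex.ofReal_intCast, Complex.ofReal_ofNat] at this
      rw [← mul_assoc, this]; push_cast; ring
    rw [e, Complex.exp_add, Complex.exp_int_mul_two_pi_mul_I, mul_one]
  have h1z : 1 + z ^ m = 2 * ((Real.cos t : ℝ) : ℂ) * Complex.exp ((t : ℂ) * Complex.I) := by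
    rw [hzm, one_add_exp]
  have hA : (1 + z ^ m) ^ (q + 1 + 1) / (z ^ m * ((((q + 1 : ℕ) : ℂ) + 1) * m)) = (R : ℂ) * σ := by
    rw [h1z, hzm, hσ, hR]
    have hE : Complex.exp ((t : ℂ) * Complex.I) ^ (q + 1 + 1)
        = Complex.exp (((q * t : ℝ) : ℂ) * Complex.I)
          * Complex.exp (((2 * t : ℝ) : ℂ) * Complex.I) := by
      rw [← Complex.exp_nat_mul, ← Complex.exp_add]
      congr 1; push_cast; ring
    rw [mul_pow, mul_pow, hE]
    have hmc : (m : ℂ) ≠ 0 := by exact_mod_cast hm.ne'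
    have hq2 : ((q : ℂ) + 2) ≠ 0 := by exact_mod_cast (show (q + 2 : ℕ) ≠ 0 by omega)
    have hq2' : ((q : ℂ) + 1 + 1) ≠ 0 := by exact_mod_cast (show (q + 1 + 1 : ℕ) ≠ 0 by omega)
    have he : Complex.exp (((2 * t : ℝ) : ℂ) * Complex.I) ≠ 0 := Complex.exp_ne_zero _
    generalize Complex.exp (((2 * t : ℝ) : ℂ) * Complex.I) = E at he
    generalize Complex.exp (((q * t : ℝ) : ℂ) * Complex.I) = E'
    generalize ((Real.cos t : ℝ) : ℂ) = C
    push_cast
    field_simp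
    ring
  have happ := hh_approx (q + 1) m hm b z hzn
  rw [hA, FF_extend D m b hDm hzero, BB_extend D m b hDm hzero] at happ
  have happ' : ‖hh (q + 1) m b z - z * FF D b z * ((R : ℂ) * σ)‖
      ≤ B * (6 * R / ((q : ℝ) + 3) + 2 / m) := by
    refine happ.trans (le_of_eq ?_)
    rw [hR, ← hBdef]; push_cast; ring_nf
  have hfl : ‖ff D b z - ff D b z0‖ ≤ B * (2 * Real.pi / m) :=
    (ff_lip D b z z0 hzn.le hz0.le).trans (by gcongr)
  have hGl : ‖z * FF D b z - G0‖ ≤ D * B * (2 * Real.pi / m) :=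
    (GG_lip D b z z0 hzn.le hz0.le).trans (by gcongr)
  have hRn : ‖(R : ℂ)‖ = R := by rw [Complex.norm_real, Real.norm_eq_abs, abs_of_pos hR0]
  have hE3 : ‖(z * FF D b z - G0) * ((R : ℂ) * σ)‖ ≤ D * B * (2 * Real.pi / m) * R := by
    rw [norm_mul, norm_mul, hRn]
    have : R * ‖σ‖ ≤ R := by nlinarith
    exact mul_le_mul hGl this (by positivity) (by positivity)
  have hE4 : ‖G0 * (R : ℂ) * (σ - v)‖ ≤ B * R * η := by
    rw [norm_mul, norm_mul, hRn]
    gcongr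
  have hE34 : ‖z * FF D b z * ((R : ℂ) * σ) - u‖ ≤ D * B * (2 * Real.pi / m) * R + B * R * η := by
    have e : z * FF D b z * ((R : ℂ) * σ) - u
        = (z * FF D b z - G0) * ((R : ℂ) * σ) + G0 * (R : ℂ) * (σ - v) := by
      rw [huv]; ring
    rw [e]
    exact (norm_add_le _ _).trans (add_le_add hE3 hE4)
  have htot : ‖ff (m * (q + 1 + 1)) (nb (q + 1) m b) z - w - ((ε / 10 : ℝ) : ℂ)‖ ≤ ε / 20 := by
    rw [ff_nb, ff_extend D m b hDm hzero]
    have e : ff D b z + hh (q + 1) m b z - w - ((ε / 10 : ℝ) : ℂ)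
        = (ff D b z - ff D b z0) + (hh (q + 1) m b z - z * FF D b z * ((R : ℂ) * σ))
          + (z * FF D b z * ((R : ℂ) * σ) - u) := by
      rw [hu]; ring
    rw [e]
    have := norm_add₃_le (a := ff D b z - ff D b z0)
      (b := hh (q + 1) m b z - z * FF D b z * ((R : ℂ) * σ))
      (c := z * FF D b z * ((R : ℂ) * σ) - u)
    linarith
  refine ⟨z, hzn, ?_, ?_, ?_⟩
  · set Y := ff (m * (q + 1 + 1)) (nb (q + 1) m b) z - w
    have := norm_sub_le Y (Y - ((ε / 10 : ℝ) : ℂ))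
    rw [sub_sub_cancel, hne] at this
    linarith
  · set Y := ff (m * (q + 1 + 1)) (nb (q + 1) m b) z - w
    have := norm_add_le (Y - ((ε / 10 : ℝ) : ℂ)) ((ε / 10 : ℝ) : ℂ)
    rw [sub_add_cancel, hne] at this
    linarith
  · rw [BB_nb, FF_nb, FF_extend D m b hDm hzero, BB_extend D m b hDm hzero, norm_mul, norm_pow,
      h1z, norm_mul, norm_mul, Complex.norm_exp_ofReal_mul_I, mul_one, Complex.norm_real,
      Real.norm_eq_abs, mul_pow]
    have hn2 : ‖(2 : ℂ)‖ = 2 := by simp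
    rw [hn2]
    have hpos1 : 0 ≤ B * (2 * Real.pi / m) := by positivity
    have hpos2 : 0 ≤ B * (6 * R / ((q : ℝ) + 3) + 2 / m) := by positivity
    have hlow : ε / 2 ≤ ‖z * FF D b z * ((R : ℂ) * σ)‖ := by
      have := norm_sub_le (z * FF D b z * ((R : ℂ) * σ)) (z * FF D b z * ((R : ℂ) * σ) - u)
      rw [sub_sub_cancel] at this
      linarith
    rw [norm_mul, norm_mul, norm_mul, hzn, one_mul, hRn, hσn] at hlow
    have hpw : |Real.cos t| ^ (q + 2) ≤ |Real.cos t| ^ (q + 1) :=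
      pow_le_pow_of_le_one (abs_nonneg _) hcos (by omega)
    set S := ‖FF D b z‖ * |Real.cos t| ^ (q + 1) with hS
    have hS1 : ε / 2 ≤ S * R := by
      refine hlow.trans ?_
      rw [hS, mul_assoc, mul_comm _ R]
      gcongr
    have hS2 : B ≤ 10 * c * S := by
      have h7 : 10 * c * (ε / 2) ≤ 10 * c * (S * R) :=
        mul_le_mul_of_nonneg_left hS1 (by positivity)
      have : B * R ≤ 10 * c * S * R := by linarith
      exact le_of_mul_le_mul_right this hR0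
    have h2p : (0 : ℝ) < 2 ^ (q + 1) := by positivity
    calc 2 ^ (q + 1) * B ≤ 2 ^ (q + 1) * (10 * c * S) := by gcongr
      _ = _ := by rw [hS]; ring

lemma step (N : ℕ) (ε c : ℝ) (D : ℕ) (b : ℕ → ℕ) (hε : 0 < ε) (hc : 0 < c)
    (h : Inv N ε c D b) :
    ∃ (D' : ℕ) (b' : ℕ → ℕ), Inv (N + 1) (ε / 20) (10 * c) D' b' ∧ D < D' ∧
      (∀ n, n < D → b' n = b n) ∧ TT D' b' ≤ TT D b + 10 * (ε * c) := by
  obtain ⟨q, m, hq, hDm, hqm, hlo, hhi, herr⟩ := params (BB D b) ε c D N h.pos hε hc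
  have hm : 0 < m := by omega
  refine ⟨m * (q + 1 + 1), nb (q + 1) m b, ⟨?_, ?_, ?_, ?_⟩, ?_, ?_, ?_⟩
  · exact fun n hn => nb_large (q + 1) m hm b n hn
  · rw [BB_nb, BB_extend D m b hDm h.zero]
    have : (1 : ℝ) ≤ 2 ^ (q + 1) := one_le_pow₀ (by norm_num)
    have := h.pos
    nlinarith
  · intro z hz
    rw [FF_nb, FF_extend D m b hDm h.zero, norm_mul, norm_pow]
    have h1 := h.inner z hz
    have h2 := one_sub_pow_ge ‖z‖ (norm_nonneg _) hz (q + 1) m N hqm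
    have h3 : 1 - ‖z‖ ^ m ≤ ‖1 + z ^ m‖ := by
      have := norm_sub_le (1 + z ^ m) (z ^ m)
      rw [add_sub_cancel_right, norm_one, norm_pow] at this
      linarith
    have h4 : 0 ≤ 1 - ‖z‖ ^ m := by
      have : ‖z‖ ^ m ≤ 1 := pow_le_one₀ (norm_nonneg _) hz.le
      linarith
    have h5 : (1 - ‖z‖ ^ m) ^ (q + 1) ≤ ‖1 + z ^ m‖ ^ (q + 1) := pow_le_pow_left₀ h4 h3 _
    have hr : 0 < 1 - ‖z‖ := by linarith
    have e : -((1 - ‖z‖ ^ (N + 1)) / (1 - ‖z‖) ^ 3)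
        = -((1 - ‖z‖ ^ N) / (1 - ‖z‖) ^ 3) + -(‖z‖ ^ N / (1 - ‖z‖) ^ 2) := by
      field_simp; ring
    rw [e, Real.exp_add]
    exact mul_le_mul h1 (h2.trans h5) (Real.exp_pos _).le (norm_nonneg _)
  · intro w hw
    obtain ⟨z0, hz0, h1, h2, h3⟩ := h.dense w hw
    exact dense_step ε c D b hε hc h.zero h.pos q m hq hDm hm hlo hhi herr w z0 hz0 h1 h2 h3
  · nlinarith
  · exact fun n hn => nb_small _ _ _ _ (by omega)
  · have := TT_nb (q + 1) m hm b
    rw [TT_extend D m b hDm h.zero, BB_extend D m b hDm h.zero] at this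
    refine this.trans ?_
    have e : (2 : ℝ) ^ (q + 1 + 1) / ((((q + 1 : ℕ) : ℝ) + 1) * m)
        = 2 ^ (q + 2) / (((q : ℝ) + 2) * m) := by push_cast; ring_nf
    rw [e]; linarith

lemma base : Inv 0 (1 / 2) 1 1 (fun n => if n = 0 then 1 else 0) := by
  refine ⟨?_, ?_, ?_, ?_⟩
  · intro n hn; simp; omega
  · simp [BB]
  · intro z _; simp [FF]
  · intro w hw
    refine ⟨1, by simp, ?_, ?_, by simp [BB, FF]⟩
    · simp only [ff, Finset.range_one, Finset.sum_singleton]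
      have := norm_add_le (1 - w) w
      simp at this ⊢
      linarith
    · simp only [ff, Finset.range_one, Finset.sum_singleton]
      have := norm_sub_le (1 : ℂ) w
      simp at this ⊢
      linarith

end Pool.Agent.Lib.MP_09c31c_an
end

-- part Pool.Agent.Lib.MP_09c31c_an.Limit
section

/-! Passing to the limit. -/

set_option autoImplicit false

namespace Pool.Agent.Lib.MP_09c31c_an

open Finset Filter Topology

noncomputable def eps (N : ℕ) : ℝ := (1 / 2) * (1 / 20) ^ N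

noncomputable def cc (N : ℕ) : ℝ := 10 ^ N

lemma eps_pos (N : ℕ) : 0 < eps N := by unfold eps; positivity

lemma cc_pos (N : ℕ) : 0 < cc N := by unfold cc; positivity

lemma eps_succ (N : ℕ) : eps (N + 1) = eps N / 20 := by unfold eps; ring

lemma cc_succ (N : ℕ) : cc (N + 1) = 10 * cc N := by unfold cc; ring

lemma eps_mul_cc (N : ℕ) : eps N * cc N = (1 / 2) ^ (N + 1) := by
  unfold eps cc
  rw [mul_assoc, ← mul_pow, pow_succ']; norm_num

lemma exists_seq : ∃ (D : ℕ → ℕ) (b : ℕ → ℕ → ℕ), (∀ N, Inv N (eps N) (cc N) (D N) (b N)) ∧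
    (∀ N, D N < D (N + 1)) ∧ (∀ N n, n < D N → b (N + 1) n = b N n) ∧
    (∀ N, TT (D (N + 1)) (b (N + 1)) ≤ TT (D N) (b N) + 10 * (1 / 2) ^ (N + 1)) := by
  let S : ℕ → Type := fun N => {s : ℕ × (ℕ → ℕ) // Inv N (eps N) (cc N) s.1 s.2}
  have hstep : ∀ N (s : S N), ∃ s' : S (N + 1), s.1.1 < s'.1.1 ∧
      (∀ n, n < s.1.1 → s'.1.2 n = s.1.2 n) ∧
      TT s'.1.1 s'.1.2 ≤ TT s.1.1 s.1.2 + 10 * (1 / 2) ^ (N + 1) := by
    intro N s
    obtain ⟨D', b', h1, h2, h3, h4⟩ := step N (eps N) (cc N) s.1.1 s.1.2 (eps_pos N) (cc_pos N) s.2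
    rw [← eps_succ, ← cc_succ] at h1
    rw [eps_mul_cc] at h4
    exact ⟨⟨(D', b'), h1⟩, h2, h3, h4⟩
  choose next hnext using hstep
  have h0 : Inv 0 (eps 0) (cc 0) 1 (fun n => if n = 0 then 1 else 0) := by
    have := base
    simpa [eps, cc] using this
  let seq : ∀ N, S N := fun N => Nat.rec (motive := S) ⟨(1, fun n => if n = 0 then 1 else 0), h0⟩
    (fun N s => next N s) N
  refine ⟨fun N => (seq N).1.1, fun N => (seq N).1.2, fun N => (seq N).2,
    fun N => (hnext N (seq N)).1, fun N => (hnext N (seq N)).2.1,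
    fun N => (hnext N (seq N)).2.2⟩

lemma exists_limit : ∃ (D : ℕ → ℕ) (β : ℕ → ℕ), StrictMono D ∧
    (∀ N, TT (D N) β ≤ TT (D 0) β + 10) ∧
    (∀ N (z : ℂ), ‖z‖ < 1 → Real.exp (-(1 / (1 - ‖z‖) ^ 3)) ≤ ‖FF (D N) β z‖) ∧
    (∀ N (w : ℂ), ‖w‖ ≤ 1 / 2 → ∃ z : ℂ, ‖z‖ = 1 ∧ ‖ff (D N) β z - w‖ ≤ 3 * eps N) := by
  obtain ⟨D, b, hI, hD, hb, hT⟩ := exists_seq
  have hmono : StrictMono D := strictMono_nat_of_lt_succ hD
  have hstab : ∀ N k n, n < D N → b (N + k) n = b N n := by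
    intro N k n hn
    induction k with
    | zero => rfl
    | succ k ih =>
      rw [← add_assoc, hb (N + k) n (lt_of_lt_of_le hn (hmono.monotone (by omega))), ih]
  have hβ : ∀ N n, n < D N → b (n + 1) n = b N n := by
    intro N n hn
    have h1 : n < D (n + 1) := lt_of_lt_of_le (Nat.lt_succ_self n) (hmono.id_le (n + 1))
    have h2 := hstab N (n + 1) n hn
    have h3 := hstab (n + 1) N n h1
    rw [add_comm] at h2
    rw [← h3, h2]
  have hFF : ∀ N z, FF (D N) (fun n => b (n + 1) n) z = FF (D N) (b N) z := by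
    intro N z
    exact Finset.sum_congr rfl fun n hn => by simp only [hβ N n (Finset.mem_range.1 hn)]
  have hff : ∀ N z, ff (D N) (fun n => b (n + 1) n) z = ff (D N) (b N) z := by
    intro N z
    exact Finset.sum_congr rfl fun n hn => by simp only [hβ N n (Finset.mem_range.1 hn)]
  have hTT : ∀ N, TT (D N) (fun n => b (n + 1) n) = TT (D N) (b N) := by
    intro N
    exact Finset.sum_congr rfl fun n hn => by simp only [hβ N n (Finset.mem_range.1 hn)]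
  refine ⟨D, fun n => b (n + 1) n, hmono, ?_, ?_, ?_⟩
  · intro N
    rw [hTT, hTT]
    have : TT (D N) (b N) ≤ TT (D 0) (b 0) + 10 * (1 - (1 / 2) ^ N) := by
      induction N with
      | zero => simp
      | succ N ih =>
        have := hT N
        rw [pow_succ] at this ⊢
        linarith
    have h2 : (0 : ℝ) ≤ (1 / 2) ^ N := by positivity
    linarith
  · intro N z hz
    rw [hFF]
    refine le_trans ?_ ((hI N).inner z hz)
    apply Real.exp_le_exp.2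
    apply neg_le_neg
    have hr : 0 < 1 - ‖z‖ := by linarith
    have : 0 ≤ ‖z‖ ^ N := by positivity
    gcongr
    linarith
  · intro N w hw
    obtain ⟨z, h1, -, h3, -⟩ := (hI N).dense w hw
    exact ⟨z, h1, by rw [hff]; exact h3⟩

lemma hasDerivAt_ff (D : ℕ) (b : ℕ → ℕ) (z : ℂ) : HasDerivAt (ff D b) (FF D b z) z := by
  unfold ff FF
  apply HasDerivAt.fun_sum
  intro n _
  have h := (hasDerivAt_pow (n + 1) z).const_mul ((b n : ℂ) / ((n : ℂ) + 1))
  have hn : ((n : ℂ) + 1) ≠ 0 := by exact_mod_cast Nat.succ_ne_zero n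
  have e : (b n : ℂ) * z ^ n
      = (b n : ℂ) / ((n : ℂ) + 1) * (((n + 1 : ℕ) : ℂ) * z ^ (n + 1 - 1)) := by
    rw [Nat.add_sub_cancel]; push_cast; field_simp
  rw [e]; exact h

theorem main : ∃ a : ℕ → ℂ, Summable (fun n => ‖a n‖) ∧
      (∀ z : ℂ, ‖z‖ < 1 → deriv (fun w : ℂ => ∑' n, a n * w ^ n) z ≠ 0) ∧
      Metric.closedBall (0 : ℂ) (1 / 2) ⊆
        (fun w : ℂ => ∑' n, a n * w ^ n) '' Metric.sphere (0 : ℂ) 1 := by
  obtain ⟨D, β, hD, hT, hin, hde⟩ := exists_limit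
  let a : ℕ → ℂ := fun n => Nat.rec (motive := fun _ => ℂ) 0
    (fun k _ => (β k : ℂ) / ((k : ℂ) + 1)) n
  have ha0 : a 0 = 0 := rfl
  have has : ∀ k, a (k + 1) = (β k : ℂ) / ((k : ℂ) + 1) := fun _ => rfl
  have hnorm : ∀ k, ‖a (k + 1)‖ = (β k : ℝ) / ((k : ℝ) + 1) := by
    intro k
    rw [has, norm_div, Complex.norm_natCast]
    have : (k : ℂ) + 1 = ((k + 1 : ℕ) : ℂ) := by push_cast; ring
    rw [this, Complex.norm_natCast]; push_cast; ring
  have hsum : Summable (fun n => ‖a n‖) := by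
    rw [← summable_nat_add_iff 1]
    apply summable_of_sum_range_le (c := TT (D 0) β + 10) (fun n => norm_nonneg _)
    intro n
    refine le_trans ?_ (hT n)
    unfold TT
    rw [Finset.sum_congr rfl (fun k _ => hnorm k)]
    apply Finset.sum_le_sum_of_subset_of_nonneg
    · intro x hx
      have := hD.id_le n
      simp only [Finset.mem_range, id] at hx this ⊢
      omega
    · intros; positivity
  set f : ℂ → ℂ := fun w : ℂ => ∑' n, a n * w ^ n with hf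
  have hbd : ∀ n (w : ℂ), w ∈ Metric.closedBall (0 : ℂ) 1 → ‖a n * w ^ n‖ ≤ ‖a n‖ := by
    intro n w hw
    rw [mem_closedBall_zero_iff] at hw
    rw [norm_mul, norm_pow]
    have : ‖w‖ ^ n ≤ 1 := pow_le_one₀ (norm_nonneg _) hw
    have h0 := norm_nonneg (a n)
    nlinarith
  have hU0 : TendstoUniformlyOn (fun (N : ℕ) (w : ℂ) => ∑ n ∈ range N, a n * w ^ n) f atTop
      (Metric.closedBall (0 : ℂ) 1) := tendstoUniformlyOn_tsum_nat hsum hbd
  have hDt : Tendsto (fun N => D N + 1) atTop atTop :=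
    (tendsto_add_atTop_nat 1).comp hD.tendsto_atTop
  have hpart : ∀ N (w : ℂ), ∑ n ∈ range (D N + 1), a n * w ^ n = ff (D N) β w := by
    intro N w
    rw [Finset.sum_range_succ', ha0, zero_mul, add_zero]
    rfl
  have hU : TendstoUniformlyOn (fun N => ff (D N) β) f atTop (Metric.closedBall (0 : ℂ) 1) := by
    have h1 : TendstoUniformlyOn
        (fun (N : ℕ) (w : ℂ) => ∑ n ∈ range (D N + 1), a n * w ^ n) f atTop
        (Metric.closedBall (0 : ℂ) 1) := fun u hu => hDt.eventually (hU0 u hu)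
    have e : (fun (N : ℕ) (w : ℂ) => ∑ n ∈ range (D N + 1), a n * w ^ n)
        = fun N => ff (D N) β := by
      funext N w; exact hpart N w
    rwa [e] at h1
  refine ⟨a, hsum, ?_, ?_⟩
  · intro z hz
    have hL : TendstoLocallyUniformlyOn (fun N => ff (D N) β) f atTop (Metric.ball (0 : ℂ) 1) :=
      (hU.mono Metric.ball_subset_closedBall).tendstoLocallyUniformlyOn
    have hd := hL.deriv (Eventually.of_forall fun N w _ =>
      (hasDerivAt_ff (D N) β w).differentiableAt.differentiableWithinAt) Metric.isOpen_ball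
    have hp := hd.tendsto_at (mem_ball_zero_iff.2 hz)
    have hp' : Tendsto (fun N => ‖FF (D N) β z‖) atTop (𝓝 ‖deriv f z‖) := by
      refine Tendsto.norm (hp.congr fun N => ?_)
      exact (hasDerivAt_ff (D N) β z).deriv
    have hge := ge_of_tendsto' hp' (fun N => hin N z hz)
    intro h0
    rw [h0, norm_zero] at hge
    exact absurd hge (not_le.2 (Real.exp_pos _))
  · intro w hw
    rw [mem_closedBall_zero_iff] at hw
    have hcont : ContinuousOn f (Metric.closedBall (0 : ℂ) 1) :=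
      continuousOn_tsum (fun n => by fun_prop) hsum hbd
    have hcomp : IsCompact (f '' Metric.sphere (0 : ℂ) 1) :=
      (isCompact_sphere 0 1).image_of_continuousOn (hcont.mono Metric.sphere_subset_closedBall)
    rw [← hcomp.isClosed.closure_eq, Metric.mem_closure_iff]
    intro δ hδ
    have he : Tendsto eps atTop (𝓝 0) := by
      have := (tendsto_pow_atTop_nhds_zero_of_lt_one (r := (1 / 20 : ℝ)) (by norm_num)
        (by norm_num)).const_mul (1 / 2 : ℝ)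
      rw [mul_zero] at this
      exact this
    have e1 : ∀ᶠ N in atTop, eps N < δ / 6 := he.eventually (gt_mem_nhds (by positivity))
    have e2 := Metric.tendstoUniformlyOn_iff.1 hU (δ / 2) (by positivity)
    obtain ⟨N, h1, h2⟩ := (e1.and e2).exists
    obtain ⟨z, hz, h3⟩ := hde N w hw
    refine ⟨f z, ⟨z, mem_sphere_zero_iff_norm.2 hz, rfl⟩, ?_⟩
    have h4 := h2 z (mem_closedBall_zero_iff.2 hz.le)
    have h5 := dist_triangle w (ff (D N) β z) (f z)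
    rw [dist_comm] at h4
    have h6 : dist w (ff (D N) β z) ≤ 3 * eps N := by
      rw [dist_comm, dist_eq_norm]; exact h3
    linarith

end Pool.Agent.Lib.MP_09c31c_an
end
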